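import Pool.Agent.H11.NS.Targets

/-!
# Module F4 of the board ns_modules (MP_9b2842_al)
-/

set_option autoImplicit false

namespace Pool.Agent.H54.NS.F4

open Pool.Agent.H11.NS

theorem pf_f4 : T_F4 := by
  classical
  intro G _ hsep E hE g H hidx hH
  revert H hidx hH
  generalize hC : Subgroup.centralizer ({g} : Set G) = C
  intro H hidx hH
  set S : Subgroup C := H.normalCore with hS
  have hfi : H.FiniteIndex := ⟨hidx⟩
  have hSfi : S.FiniteIndex := by rw [hS]; infer_instance
  have hSn : S.Normal := by rw [hS]; infer_instance
  have hSle : S ≤ H := H.normalCore_le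
  have hfin : Finite (C ⧸ S) := Subgroup.finite_quotient_of_finiteIndex
  have hSsol : Group.IsSolvable S := by
    have : Group.IsSolvable H := hH
    exact Group.isSolvable_of_isSolvable_injective (Subgroup.inclusion_injective hSle)
  let π : C →* C ⧸ S := QuotientGroup.mk' S
  let F : Finset G → Subgroup (C ⧸ S) := fun A =>
    ((Subgroup.closure (A : Set G)).subgroupOf C).map π
  have key : ∀ r : ℕ, ∃ A : Finset G, (∀ a ∈ A, a ∈ C) ∧ r ≤ ((F A : Set (C ⧸ S))).ncard := by
    intro r
    induction r with
    | zero => exact ⟨∅, by simp, Nat.zero_le _⟩
    | succ r ih =>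
      obtain ⟨A, hA, hr⟩ := ih
      obtain ⟨y, hy⟩ := hsep (E ∪ ({g} ∪ A))
      let B : Finset G := E.image (fun u => y * u * y⁻¹)
      have hBC : ∀ b ∈ B, b ∈ C := by
        intro b hb
        obtain ⟨u, hu, rfl⟩ := Finset.mem_image.mp hb
        rw [← hC, Subgroup.mem_centralizer_singleton_iff]
        exact (hy u (by simp [hu]) g (by simp))
      have hBA : ∀ b ∈ B, ∀ a ∈ A, b * a = a * b := by
        intro b hb a ha
        obtain ⟨u, hu, rfl⟩ := Finset.mem_image.mp hb
        exact hy u (by simp [hu]) a (by simp [ha])
      have hBcl : Subgroup.closure (B : Set G) ≤ C := by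
        rw [Subgroup.closure_le]; intro b hb; exact hBC b (by simpa using hb)
      have hcomm : ∀ b ∈ Subgroup.closure (B : Set G), ∀ a ∈ Subgroup.closure (A : Set G),
          b * a = a * b := by
        intro b hb a ha
        have h1 : Subgroup.closure (B : Set G) ≤ Subgroup.centralizer (A : Set G) := by
          rw [Subgroup.closure_le]
          intro b hb
          rw [SetLike.mem_coe, Subgroup.mem_centralizer_iff]
          intro a ha
          exact (hBA b (by simpa using hb) a (by simpa using ha)).symm
        have h2 : Subgroup.closure (A : Set G) ≤ Subgroup.centralizer ({b} : Set G) := by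
          rw [Subgroup.closure_le]
          intro a ha
          rw [SetLike.mem_coe, Subgroup.mem_centralizer_singleton_iff]
          exact (Subgroup.mem_centralizer_iff.mp (h1 hb) a ha)
        exact (Subgroup.mem_centralizer_singleton_iff.mp (h2 ha)).symm
      have hnot : ¬ F B ≤ F A := by
        intro hle
        apply hE
        have hab : ∀ p q : F B, p * q = q * p := by
          rintro ⟨p, hp⟩ ⟨q, hq⟩
          have hq' := hle hq
          obtain ⟨b, hb, rfl⟩ := Subgroup.mem_map.mp hp
          obtain ⟨a, ha, rfl⟩ := Subgroup.mem_map.mp hq'
          apply Subtype.ext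
          show π b * π a = π a * π b
          rw [← map_mul, ← map_mul]
          congr 1
          apply Subtype.ext
          exact hcomm _ (Subgroup.mem_subgroupOf.mp hb) _ (Subgroup.mem_subgroupOf.mp ha)
        have hFsol : Group.IsSolvable (F B) := Group.isSolvable_of_comm hab
        let K : Subgroup C := (Subgroup.closure (B : Set G)).subgroupOf C
        have hSK : Group.IsSolvable ↥(S ⊓ K) := by
          have := hSsol
          exact Group.isSolvable_of_isSolvable_injective
            (Subgroup.inclusion_injective (inf_le_left : S ⊓ K ≤ S))
        have hKsol : Group.IsSolvable K := by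
          refine Group.isSolvable_of_ker_le_range
            (Subgroup.inclusion (inf_le_right : S ⊓ K ≤ K)) (π.subgroupMap K) ?_
          intro x hx
          rw [MonoidHom.mem_ker] at hx
          have hx1 : π (x : C) = 1 := by
            have := congrArg Subtype.val hx
            simpa using this
          have hx2 : (x : C) ∈ S := (QuotientGroup.eq_one_iff _).mp hx1
          exact ⟨⟨x, hx2, x.2⟩, by ext; rfl⟩
        have hBsol : Group.IsSolvable (Subgroup.closure (B : Set G)) :=
          Group.isSolvable_of_isSolvable_injective
            (f := (Subgroup.subgroupOfEquivOfLe hBcl).symm.toMonoidHom)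
            (Subgroup.subgroupOfEquivOfLe hBcl).symm.injective
        have hBE : Subgroup.closure (B : Set G) =
            (Subgroup.closure (E : Set G)).map (MulAut.conj y).toMonoidHom := by
          rw [MonoidHom.map_closure]
          congr 1
          ext z
          simp [B]
        rw [hBE] at hBsol
        have := hBsol
        exact Group.isSolvable_of_isSolvable_injective
          (f := ((Subgroup.closure (E : Set G)).equivMapOfInjective (MulAut.conj y).toMonoidHom
            (MulAut.conj y).injective).toMonoidHom)
          ((Subgroup.closure (E : Set G)).equivMapOfInjective (MulAut.conj y).toMonoidHom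
            (MulAut.conj y).injective).injective
      refine ⟨A ∪ B, ?_, ?_⟩
      · intro a ha
        rcases Finset.mem_union.mp ha with h | h
        · exact hA a h
        · exact hBC a h
      · have hle1 : F A ≤ F (A ∪ B) := by
          apply Subgroup.map_mono
          apply Subgroup.comap_mono
          exact Subgroup.closure_mono (by simp)
        have hle2 : F B ≤ F (A ∪ B) := by
          apply Subgroup.map_mono
          apply Subgroup.comap_mono
          exact Subgroup.closure_mono (by simp)
        have hlt : (F A : Set (C ⧸ S)) ⊂ (F (A ∪ B) : Set (C ⧸ S)) := by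
          refine ⟨hle1, fun h => hnot ?_⟩
          exact hle2.trans h
        have := Set.ncard_lt_ncard hlt (Set.toFinite _)
        omega
  obtain ⟨A, _, hr⟩ := key (Nat.card (C ⧸ S) + 1)
  have h1 : ((F A : Set (C ⧸ S))).ncard ≤ (Set.univ : Set (C ⧸ S)).ncard :=
    Set.ncard_le_ncard (Set.subset_univ _) (Set.toFinite _)
  rw [Set.ncard_univ] at h1
  omega

end Pool.Agent.H54.NS.F4
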